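import Pool.Agent.H61.KW.TA

/-!
# Kuiper board KW, row TOP: a largest face is the whole cone
-/

set_option autoImplicit false

namespace Pool.Agent.H1.KW.TOP

open Pool.Agent.H61.KV Pool.Agent.H61.KW

theorem pf_TOP : T_TOP := by
  intro V _ _ _ C hC hs
  have h0 : (0 : V) ∈ C := hC.zero
  -- ranks are bounded
  have hb : ∀ p ∈ C, rk C p ≤ Module.finrank ℝ V := fun p _ => Submodule.finrank_le _
  obtain ⟨n, ⟨c, hc, hcn⟩, hmax⟩ : ∃ n, (∃ c ∈ C, rk C c = n) ∧
      ∀ m, (∃ c ∈ C, rk C c = m) → m ≤ n := by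
    classical
    have hne : ∃ n, ∃ c ∈ C, rk C c = n := ⟨_, 0, h0, rfl⟩
    have hP : ∀ m, (∃ c ∈ C, rk C c = m) → m ≤ Module.finrank ℝ V := by
      rintro m ⟨c, hc, rfl⟩
      exact hb c hc
    refine ⟨Nat.findGreatest (fun n => ∃ c ∈ C, rk C c = n) (Module.finrank ℝ V), ?_, ?_⟩
    · obtain ⟨n, hn⟩ := hne
      exact Nat.findGreatest_spec (P := fun n => ∃ c ∈ C, rk C c = n) (hP n hn) hn
    · intro m hm
      exact Nat.le_findGreatest (hP m hm) hm
  have hall : ∀ r ∈ C, r ∈ Fc C c := by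
    intro r hr
    have hcr : c + r ∈ C := hC.add c hc r hr
    have h1 : c ∈ Fc C (c + r) := left_fc hC hc hr
    have h2 : rk C (c + r) ≤ rk C c := by
      rw [hcn]
      exact hmax _ ⟨c + r, hcr, rfl⟩
    have h3 : c + r ∈ Fc C c := of_rk hC hcr h1 h2
    exact ((add_iff hC hc hc hr).1 h3).2
  refine ⟨c, hc, ?_, hall⟩
  rw [eq_top_iff, ← hs]
  exact Submodule.span_mono hall

end Pool.Agent.H1.KW.TOP
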